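import Pool.Agent.Lib.Pc0b458E.MainS

/-!
# MP_c0b458_ag: positivity up to a central involution

`Pc0b458Z.NumAb` (file `Pool.Agent.Lib.Pc0b458V.Stmt`) is the ring of cycles modulo numerical
equivalence on an abelian variety over a field with a polarisation `L`, and `Pc0b458Z.CMAb` lists
elementary properties of the classes of effective cycles on an abelian variety `A` with complex
multiplication, and on `A × A`, in the cohomology ring. `Product`, `Specialisation` and `GenA` are in
`Pool.Agent.Lib.Pc0b458G.Stmt`. `Powers`, `Lie` and `Cartan` are in `Pool.Agent.Lib.Pc0b458E.Stmt`,
`ext` and `Central` in `Pool.Agent.Lib.Pc0b458E.StmtG`, `Saturated` in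
`Pool.Agent.Lib.Pc0b458E.StmtS`, and `CFixed`, `Four` and `RankTwo` in
`Pool.Agent.Lib.Pc0b458E.StmtZ`.

`X` is any abelian variety over any field. `Y` is an abelian variety over an algebraically closed
field, the product of `X` and of an abelian variety, and `A` is a reduction of `Y` over an algebraic
closure of a finite field. The hypotheses hold for `Y = X ^ 4`, and then the `Central` linear maps
are the linear combinations of the elements of the centre of `End(Y) ⊗ ℚ`, which is the centre of
`End(X) ⊗ ℚ` over the algebraically closed field.

There is one central linear map `Z` of the first cohomology for all codimensions. The ring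
automorphism `ext Z` of the cohomology is an involution on the classes of algebraic cycles on `Y`.
For every `n` and every nonzero primitive class `x` on `X` of codimension `n` there are primitive
classes `y` which are specialisations of the pull-back of `x`, and
`(-1) ^ n * y * ext Z y * L ^ (dim Y - 2 * n)` is positive for all of them. If `ext Z y = y` then
this is the assertion of the conjecture for `x`.

So the form of the conjecture is positive up to a sign, which depends only on the character through
which the centre acts. The sign is trivial on the classes which are obtained from classes of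
codimension at most two on `A` by sums, products and primitive components; it is trivial on all
characters which occur in the cohomology of degree at most four and which are trivial on the central
elements which fix the classes of all algebraic cycles on `Y`; and, by the theorem of Ancona on
motives of rank two, it is trivial on classes of algebraic cycles like those on abelian varieties of
Weil type.
-/

universe u

namespace Pool.Agent.Results.MP_c0b458_ag.CentralInvolution

open Pc0b458Z Pc0b458G Pc0b458E

theorem result (X Y : NumAb.{u}) (P : Product X Y) (A : CMAb) (Pw : Powers A) (hs : Saturated A)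
    (S : Specialisation Y A) (C : Cartan S) (h4 : Four S) :
    ∃ Z : Module.End ℂ (H1 A.g), Central S Z ∧
      (∀ m x' y', S.sp m x' y' → ext Z (ext Z y') = y') ∧
      (∀ m x' y', S.sp m x' y' → GenA A m y' → ext Z y' = y') ∧
      (∀ k ≤ 4, ∀ c, InDeg k c → CFixed S c → ext Z c = c) ∧
      (RankTwo A → ∀ m x' y' (η : Fin A.g → ℤ) (a b : ℂ), S.sp m x' y' → (∀ s, |η s| ≤ 1) →
        y' = a • mon η + b • mon (-η) → ext Z y' = y') ∧
      ∀ n, 2 * n ≤ X.g → ∀ x ∈ X.cod n, X.L ^ (X.g - 2 * n + 1) * x = 0 → x ≠ 0 →
        (∃ y, S.sp n (P.pr x) y ∧ pol A.g ^ (A.g - 2 * n + 1) * y = 0) ∧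
        ∀ y, S.sp n (P.pr x) y → pol A.g ^ (A.g - 2 * n + 1) * y = 0 →
          (∃ r : ℝ, 0 < r ∧ (-1) ^ n * A.int (y * ext Z y * pol A.g ^ (A.g - 2 * n)) = r) ∧
          (ext Z y = y → 0 < (-1) ^ n * X.deg (x * x * X.L ^ (X.g - 2 * n))) :=
  mainS P Pw hs S C h4

end Pool.Agent.Results.MP_c0b458_ag.CentralInvolution
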