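import Pool.Agent.Lib.Pc0b458G.Main

/-!
# MP_c0b458_ag: positivity in codimension two and on all classes generated in codimension two

`Pc0b458Z.NumAb` (file `Pool.Agent.Lib.Pc0b458V.Stmt`) is the ring of cycles modulo numerical
equivalence on an abelian variety over a field with a polarisation `L`, and `Pc0b458Z.CMAb` lists
elementary properties of the classes of effective cycles on an abelian variety `A` with complex
multiplication, and on `A × A`, in the cohomology ring. The other definitions are in
`Pool.Agent.Lib.Pc0b458G.Stmt`.

`Y` is the product of `X` with any polarised abelian variety (`Pc0b458G.Product`), for example with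
a point, and `A` is a reduction of `Y`, or `Y` itself (`Pc0b458G.Specialisation`). Every `Y` has a
reduction `A` of this kind, over an algebraic closure of a finite field.

`Pc0b458G.GenA A n` is the subspace `G^n(A)` of the space of classes of cycles of codimension `n` on
`A`, where `G` is the smallest system of subspaces which contains all classes of codimension at most
two and which is closed under products and under the primitive components of the Lefschetz
decomposition. The hypothesis is that `n ≤ 2`, or that a specialisation `y` of the pull-back of `x`
to `Y` is in `G^n(A)`.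
-/

universe u

namespace Pool.Agent.Results.MP_c0b458_ag.GeneratedInCodimTwo

open Pc0b458Z Pc0b458G

theorem result (X Y : NumAb.{u}) (P : Product X Y) (A : CMAb) (S : Specialisation Y A) (n : ℕ)
    (hn : 2 * n ≤ X.g) (x : X.Z) (hx : x ∈ X.cod n) (hL : X.L ^ (X.g - 2 * n + 1) * x = 0)
    (h0 : x ≠ 0) (h : n ≤ 2 ∨ ∃ y, S.sp n (P.pr x) y ∧ GenA A n y) :
    0 < (-1) ^ n * X.deg (x * x * X.L ^ (X.g - 2 * n)) := by
  rcases h with h | ⟨y, hy, h⟩
  · obtain ⟨y, hy⟩ := S.ex n _ (P.pr_mem n x hx)
    exact main P S hn hx hL h0 hy (GenA.base h (S.alg _ _ _ hy))
  · exact main P S hn hx hL h0 hy h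

end Pool.Agent.Results.MP_c0b458_ag.GeneratedInCodimTwo
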