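import Pool.Agent.Lib.Pc0b458D.Low
import Pool.Agent.Lib.Pc0b458D.Main

/-!
# MP_c0b458_ag: the numerical Hodge standard conjecture and semistable reduction

`Pc0b458Z.NumAb` (file `Pool.Agent.Lib.Pc0b458V.Stmt`) is the ring of cycles modulo numerical
equivalence on a polarised abelian variety over a field, and `Pc0b458D.Degeneration X B` (file
`Pool.Agent.Lib.Pc0b458D.Stmt`) says that `X` has semistable reduction with abelian part `B` at some
place. `Pc0b458G.Specialisation B A` says that `A` is a reduction of `B` with complex multiplication;
every `B` has such a reduction, over an algebraic closure of a finite field.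

If the dimension of `B` is at most five, the last hypothesis is empty.
-/

universe u

namespace Pool.Agent.Results.MP_c0b458_ag.SemistableReduction

open Pc0b458Z Pc0b458G Pc0b458D

theorem result (X B : NumAb.{u}) (D : Degeneration X B) (A : CMAb) (S : Specialisation B A)
    (n : ℕ) (hn : 2 * n ≤ X.g) (h : ∀ m, 3 ≤ m → m ≤ n → 2 * m ≤ B.g → B.Positive m) :
    X.Positive n := by
  refine main_pos D hn fun m hm hg => ?_
  rcases Nat.lt_or_ge m 3 with h3 | h3
  · exact positive_low B A S (by omega) hg
  · exact h m h3 hm hg

end Pool.Agent.Results.MP_c0b458_ag.SemistableReduction
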