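import Pool.Agent.Lib.Pc0b458E.MainM
import Pool.Agent.Lib.Pc0b458E.Nondeg
import Pool.Agent.Lib.Pc0b458E.Codes
import Pool.Agent.Lib.Pc0b458E.CodesP

/-!
# MP_c0b458_ag: classes fixed by the unitary group of the centre

`Pc0b458Z.NumAb` (file `Pool.Agent.Lib.Pc0b458V.Stmt`) is the ring of cycles modulo numerical
equivalence on an abelian variety over a field with a polarisation `L`, and `Pc0b458Z.CMAb` lists
elementary properties of the classes of effective cycles on an abelian variety `A` with complex
multiplication, and on `A × A`, in the cohomology ring. The other definitions are in the files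
`Pool.Agent.Lib.Pc0b458G.Stmt` and `Pool.Agent.Lib.Pc0b458E.Stmt`, `StmtG`, `StmtM`, `StmtN`, `StmtR`
and `StmtS`.

`X` is an abelian variety over any field `k`, with any polarisation, and the theorem is used with
`Y = X × X`, over an algebraic closure of `k` (`Pc0b458G.Product`). `A` is a reduction of `Y` over an
algebraic closure of a finite field, or `Y` itself (`Pc0b458G.Specialisation`).

* `Powers`: the cycles on the powers of `A`, in the `ℓ`-adic cohomology for a prime `ℓ` such that
  homological and numerical equivalence agree on `A`. Such a prime exists by a theorem of Clozel.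
* `Saturated`: the algebraic weights of `A` are the weights on which a torus, the motivic group of
  `A`, acts trivially (Jannsen).
* `Lie S` is the Lie algebra of the group of all automorphisms of the first cohomology which fix the
  classes of all algebraic cycles on `Y`.
* `Cartan S`: the CM algebra of `A` contains a maximal torus of this group. It exists by the theorems
  of Tate on endomorphisms and on divisors over finite fields.
* `Central S Z`: `Z` is in the centre of the commutant of `Lie S`. By the theorems of Faltings, Zarhin
  and Mori this is `F ⊗ ℂ`, where `F` is the centre of the algebra `End(X) ⊗ ℚ`, over the algebraic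
  closure of `k`. It is a product of totally real fields and of CM fields. `SkewMap Z`: `Z` is mapped
  to `-Z` by the Rosati involution.
* `RealPlaces S Γ`: `Pl` is the set of the embeddings in `ℂ` of the totally real factors of `F`, and
  `Γ` is the group of permutations of `Pl` given by the Galois group. `Pl` can be empty.

* `Slopes A`: the slopes of the Frobenius of `A`. `Nondegenerate S Sl`: they are nondegenerate on `F`,
  for example if `F` is an imaginary quadratic field in which the characteristic `p` of the field of
  definition of `A` splits, and if the two eigenspaces of `F` in the Lie algebra of `X` have different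
  dimensions.

The conclusion is the positivity in Q1 for all polarisations and for the class `x` of codimension `n`,
if one of the following holds:

* `F` is totally real;
* the slopes of `A` are nondegenerate on `F`;
* a primitive class `y` of `x` on `A` is killed by all `Z` in `F ⊗ ℂ` with `SkewMap Z` (acting as
  derivations), that is, `y` is fixed by the unitary group of `F`.

The hypothesis on the product `F₀` of the totally real factors of `F` is one of the following:

* its degree is at most five, for example `F₀ = 0`;
* it is a field of degree `d`, its Galois group is the symmetric or the alternating group, and `d` is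
  odd or `n < d / 2`;
* it is a field of degree seven, or of prime degree `d` such that `2` is a primitive root modulo `d`.
-/

universe u

namespace Pool.Agent.Results.MP_c0b458_ag.UnitaryInvariants

open Pc0b458Z Pc0b458G Pc0b458E

theorem result (X Y : NumAb.{u}) (P : Product X Y) (A : CMAb) (Pw : Powers A) (hA : Saturated A)
    (S : Specialisation Y A) (hC : Cartan S) (Pl : Type) [Fintype Pl] [DecidableEq Pl]
    (Γ : Subgroup (Equiv.Perm Pl)) (F : RealPlaces S Γ) (n : ℕ) (hn : 2 * n ≤ X.g)
    (hF : Fintype.card Pl ≤ 5 ∨
      ((∀ σ : Equiv.Perm Pl, σ.IsThreeCycle → σ ∈ Γ) ∧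
        (Odd (Fintype.card Pl) ∨ 2 * n < Fintype.card Pl)) ∨
      ((∀ p q, ∃ γ ∈ Γ, γ p = q) ∧ (Fintype.card Pl = 7 ∨
        (Fintype.card Pl).Prime ∧ orderOf (2 : ZMod (Fintype.card Pl)) = Fintype.card Pl - 1)))
    (x : X.Z) (hx : x ∈ X.cod n) (hL : X.L ^ (X.g - 2 * n + 1) * x = 0) (h0 : x ≠ 0)
    (hy : (∀ s, F.pl s ≠ none) ∨ (∃ Sl : Slopes A, Nondegenerate S Sl) ∨
      ∃ y, S.sp n (P.pr x) y ∧ pol A.g ^ (A.g - 2 * n + 1) * y = 0 ∧
        ∀ Z, Central S Z → SkewMap Z → ∃ D, IsDer Z D ∧ D y = 0) :
    0 < (-1) ^ n * X.deg (x * x * X.L ^ (X.g - 2 * n)) := by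
  have hQ : QuadCode Γ n := by
    rcases hF with h | ⟨h, h'⟩ | ⟨h, h' | ⟨h', h2⟩⟩
    · exact quadCode_of_card h
    · exact quadCode_of_alt h h'
    · exact quadCode_of_seven h h'
    · exact quadCode_of_prime h h' h2
  obtain ⟨y, hy, hp, hk⟩ : ∃ y, S.sp n (P.pr x) y ∧ pol A.g ^ (A.g - 2 * n + 1) * y = 0 ∧
      ∀ Z, Central S Z → SkewMap Z → ∃ D, IsDer Z D ∧ D y = 0 := by
    rcases hy with h | ⟨Sl, h⟩ | h
    · obtain ⟨y, hy, hp⟩ := exists_prim P S hn hx hL
      refine ⟨y, hy, hp, fun Z hZ hZ' => ?_⟩
      rw [skew_eq_zero F h hZ hZ']
      exact kill_zero y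
    · obtain ⟨y, hy, hp⟩ := exists_prim P S hn hx hL
      exact ⟨y, hy, hp, fun Z hZ hZ' => kill_of_nondegenerate Pw hC h hy Z hZ hZ'⟩
    · exact h
  exact mainM P Pw hA S hC F hQ hn hx h0 hy hp hk

end Pool.Agent.Results.MP_c0b458_ag.UnitaryInvariants
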